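import Pool.Agent.Helper6.MONO.Stmts

set_option autoImplicit false

namespace Pool.Agent.Helper6.MONO

theorem rbt_cot {a b : ℝ} (ha : 0 < a) (hab : a ≤ b) (hb : b < Real.pi) :
    Real.cos b / Real.sin b ≤ Real.cos a / Real.sin a := by
  have h1 : 0 < Real.sin a := Real.sin_pos_of_pos_of_lt_pi ha (by linarith)
  have h2 : 0 < Real.sin b := Real.sin_pos_of_pos_of_lt_pi (by linarith) hb
  have h3 : 0 ≤ Real.sin (b - a) :=
    Real.sin_nonneg_of_nonneg_of_le_pi (by linarith) (by linarith)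
  rw [Real.sin_sub] at h3
  rw [div_le_div_iff₀ h2 h1]
  nlinarith

theorem rbt_last {φ : ℝ} (h0 : 0 < φ) (h1 : φ < Real.pi / 2) :
    Real.tan φ * (Real.cos (Real.pi / 2 + φ / 2) / Real.sin (Real.pi / 2 + φ / 2)) =
      1 - 1 / Real.cos φ := by
  have hc : 0 < Real.cos φ := Real.cos_pos_of_mem_Ioo ⟨by linarith, h1⟩
  have hc2 : 0 < Real.cos (φ / 2) := Real.cos_pos_of_mem_Ioo ⟨by linarith, by linarith⟩
  have e1 : Real.cos (Real.pi / 2 + φ / 2) = - Real.sin (φ / 2) := by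
    rw [Real.cos_add]; simp
  have e2 : Real.sin (Real.pi / 2 + φ / 2) = Real.cos (φ / 2) := by
    rw [Real.sin_add]; simp
  have e3 : Real.sin φ = 2 * Real.sin (φ / 2) * Real.cos (φ / 2) := by
    rw [← Real.sin_two_mul]; congr 1; ring
  have e4 : Real.cos φ = 1 - 2 * Real.sin (φ / 2) ^ 2 := by
    have : Real.cos φ = Real.cos (2 * (φ / 2)) := by congr 1; ring
    rw [this, Real.cos_two_mul]
    nlinarith [Real.sin_sq_add_cos_sq (φ / 2)]
  rw [e1, e2, Real.tan_eq_sin_div_cos, e3]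
  have e5 : 2 * Real.sin (φ / 2) * Real.cos (φ / 2) / Real.cos φ *
      (-Real.sin (φ / 2) / Real.cos (φ / 2)) = - (2 * Real.sin (φ / 2) ^ 2) / Real.cos φ := by
    field_simp
  rw [e5, eq_sub_iff_add_eq, ← add_div, div_eq_one_iff_eq hc.ne']
  linarith

theorem st_RBT : ST_RBT := by
  intro M m0 m hM hm0 hm
  have hM0 : (0 : ℝ) < M := by exact_mod_cast (by omega : 0 < M)
  have hM3 : (3 : ℝ) ≤ M := by exact_mod_cast hM
  set φ : ℝ := Real.pi / M with hφ
  have hφ0 : 0 < φ := div_pos Real.pi_pos hM0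
  have hφM : M * φ = Real.pi := by rw [hφ]; field_simp
  have hφ2 : φ < Real.pi / 2 := by
    rw [hφ]
    apply div_lt_div_of_pos_left Real.pi_pos (by norm_num)
    linarith
  have htan : 0 < Real.tan φ := Real.tan_pos_of_pos_of_lt_pi_div_two hφ0 hφ2
  have hRb : ∀ j : ℕ, Rb M j = Real.tan φ * (Real.cos (j * φ / 2) / Real.sin (j * φ / 2)) :=
    fun j => rfl
  have hmono : ∀ i j : ℕ, 2 ≤ i → i ≤ j → j ≤ M + 1 → Rb M j ≤ Rb M i := by
    intro i j hi hij hj
    have hi' : (2 : ℝ) ≤ i := by exact_mod_cast hi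
    have hij' : (i : ℝ) ≤ j := by exact_mod_cast hij
    have hj' : (j : ℝ) ≤ M + 1 := by exact_mod_cast hj
    rw [hRb, hRb]
    apply mul_le_mul_of_nonneg_left _ htan.le
    apply rbt_cot
    · nlinarith
    · nlinarith [mul_le_mul_of_nonneg_right hij' hφ0.le]
    · have h1 := mul_le_mul_of_nonneg_right hj' hφ0.le
      have h2 : ((M : ℝ) + 1) * φ = Real.pi + φ := by rw [add_mul, hφM, one_mul]
      linarith
  refine ⟨fun hmM => ⟨hmono m0 m hm0 hm hmM, ?_⟩, fun hmM => ?_⟩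
  · refine le_trans (le_of_eq ?_) (hmono m (M + 1) (by omega) hmM le_rfl)
    rw [hRb]
    have e1 : ((M + 1 : ℕ) : ℝ) * φ / 2 = Real.pi / 2 + φ / 2 := by
      push_cast
      rw [add_mul, hφM, one_mul]
      ring
    rw [e1, rbt_last hφ0 hφ2]
    have e2 : Kp M = 2 * Real.cos φ := rfl
    have hc : 0 < Real.cos φ := Real.cos_pos_of_mem_Ioo ⟨by linarith, hφ2⟩
    rw [e2]
    field_simp
  · have hm2 : (2 : ℝ) ≤ m := by exact_mod_cast hm0.trans hm
    have hmM' : (m : ℝ) ≤ M := by exact_mod_cast hmM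
    have h1 : (m : ℝ) * φ / 2 ≤ Real.pi / 2 := by
      have := mul_le_mul_of_nonneg_right hmM' hφ0.le
      rw [hφM] at this
      linarith
    have h2 : 0 ≤ (m : ℝ) * φ / 2 := by positivity
    rw [hRb]
    apply mul_nonneg htan.le
    apply div_nonneg
    · exact Real.cos_nonneg_of_mem_Icc ⟨by linarith [Real.pi_pos], h1⟩
    · exact Real.sin_nonneg_of_nonneg_of_le_pi h2 (by linarith [Real.pi_pos])

end Pool.Agent.Helper6.MONO
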